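import Pool.Agent.TH733.RG.OneOne
import Pool.Agent.TH733.RT.Use

/-!
# Common translates of independent random oracles: the 1-degrees of the complete sets

`xor2 A B` is the symmetric difference of the oracles `A` and `B`, the translate of `A` by `B`.

* For every sequence `B 0, B 1, ...` of oracles there is one oracle `A` such that, relative to every
  translate of `A` by a `B i`, the complete sets for `NP` are not one 1-degree, and the same for
  `PSPACE` and all the classes between them.
* Let the `B i` be independent random oracles. Almost surely, for every set `I` of numbers there is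
  one oracle `A` such that for all `i`, relative to the translate of `A` by `B i`: if `i` is in `I`,
  then the complete sets for `NP` are not one 1-degree, and the same for `PSPACE`; if `i` is not in
  `I`, then the complete sets for `NP` are one 1-degree, the same holds for `PSPACE`, and every set
  that is hard for a class with some closure properties under many-one reductions is hard for this
  class under one-one, length-increasing reductions.

So every pattern of answers to Q1, and the same pattern of answers to Q2, is realised by the
translates of one oracle.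

Proof. `A` codes the computations relative to its translates by the `B i`, `i ∈ I`, masked by
`B i`, so that `P = PSPACE` relative to these translates and finite sets are complete; on the strings
of length at most `n` it depends on `I` only below `log n`; for a fixed `I` the translate by an
independent random oracle is random; and the bad events for the theorem on random oracles
(`H673R2.OneOne`) have small probabilities and depend on short strings only, so that the exceptional
oracles form a null set for a slowly growing gauge, which allows to treat all `I` at the same time.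
-/

set_option autoImplicit false

namespace Pool.Agent.Results.MP_8a92de_lc.IndependentTranslates

open MeasureTheory Filter Pool.Agent.NPC Pool.Agent.H628R3.RO
open Pool.Agent.H673R2.OneOne (Red1)
open Pool.Agent.H620R2.Gauge (IsPSPACE)
open Pool.Agent.H622R2 (poly_of_polyTime)
open Pool.Agent.TH733.RT (xor2 randomSeq use_p)
open Pool.Agent.TH733

/-- `K` is hard for the class `C` under many-one reductions computable in polynomial time relative
to `A`. -/
def Hard (A : Oracle) (C : Set (List Bool) → Prop) (K : Set (List Bool)) : Prop :=
  ∀ L, C L → Red A L K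

/-- `K` is hard for the class `C` under one-one, length-increasing reductions computable in
polynomial time relative to `A`. -/
def HardOne (A : Oracle) (C : Set (List Bool) → Prop) (K : Set (List Bool)) : Prop :=
  ∀ L, C L → Red1 A L K

/-- One-one reducibility in polynomial time relative to `A`. -/
def RedOne (A : Oracle) (L L' : Set (List Bool)) : Prop :=
  ∃ F : List Bool → List Bool, IsFP A F ∧ Function.Injective F ∧ ∀ x, x ∈ L ↔ F x ∈ L'

/-- The complete sets for `C` form one 1-degree, relative to `A`. -/
def OneDegree (A : Oracle) (C : Set (List Bool) → Prop) : Prop :=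
  ∀ K K', C K → Hard A C K → C K' → Hard A C K' → RedOne A K K'

/-- `C` is closed under many-one reductions relative to `A`, and under intersections and unions with
sets in `NP` relative to `A`. -/
def Closed (A : Oracle) (C : Set (List Bool) → Prop) : Prop :=
  (∀ L L', Red A L L' → C L' → C L) ∧
  (∀ L L', C L → IsNP A L' → C (L' ∩ L)) ∧ (∀ L L', C L → IsNP A L' → C (L ∪ L'))

theorem oneDegree_of {A : Oracle} {C : Set (List Bool) → Prop}
    (h : ∀ K, Hard A C K → HardOne A C K) : OneDegree A C := by
  intro K K' hK _ _ hK'
  obtain ⟨F, h1, h2, -, h3⟩ := h K' hK' K hK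
  exact ⟨F, h1, h2, h3⟩

theorem isNP_poly {A : Oracle} {p : List Bool → Bool} (hp : Poly p) :
    IsNP A {x | p x = true} := by
  have hf : Poly (fun z : List Bool => [p (unpair z).1]) :=
    Poly.cons (hp.comp (Poly.fst poly_unpair)) (NPC.Poly.const [])
  refine ⟨_, 0, IsFP.of_poly hf, fun x => ?_⟩
  rw [Set.mem_ofPred_eq]
  constructor
  · intro h
    refine ⟨[], by simp, ?_⟩
    rw [unpair_pairBits, h]
  · rintro ⟨w, -, h⟩
    rw [unpair_pairBits] at h
    simpa using h

/-- if all of `PSPACE` reduces to the oracle then the complete sets for the classes between `NP` and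
`PSPACE` are not one 1-degree -/
theorem not_oneDegree {A : Oracle} (h : ∀ L, IsPSPACE A L → Reduces L {x | A x = true})
    {C : Set (List Bool) → Prop} (h₁ : ∀ L, IsNP A L → C L) (h₂ : ∀ L, C L → IsPSPACE A L) :
    ¬ OneDegree A C := by
  have e1 : ({[]} : Set (List Bool)) = {x | decide (x = []) = true} := by
    ext x
    simp
  have e2 : ({[], [true]} : Set (List Bool)) =
      {x | (decide (x = []) || decide (x = [true])) = true} := by
    ext x
    simp
  have c1 : C {[]} := by
    rw [e1]
    exact h₁ _ (isNP_poly (Poly.decide_eq Poly.id (NPC.Poly.const _)))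
  have c2 : C {[], [true]} := by
    rw [e2]
    exact h₁ _ (isNP_poly (Poly.or (Poly.decide_eq Poly.id (NPC.Poly.const _))
      (Poly.decide_eq Poly.id (NPC.Poly.const _))))
  have hard : ∀ K : Set (List Bool), [] ∈ K → [true, true] ∉ K → Hard A C K := by
    intro K hK1 hK2 L hL
    obtain ⟨f, hf, hfL⟩ := h L (h₂ L hL)
    have hf' := poly_of_polyTime hf
    have hH : Poly (fun p : List Bool × List Bool =>
        if p.2 = [true] then ([] : List Bool) else [true, true]) :=
      Poly.ite (Poly.decide_eq (Poly.snd Poly.id) (NPC.Poly.const _)) (NPC.Poly.const _)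
        (NPC.Poly.const _)
    refine ⟨_, IsFP.tt (Q := fun x => [f x]) (Poly.cons hf' (NPC.Poly.const [])) hH, fun x => ?_⟩
    rw [hfL x, Set.mem_ofPred_eq]
    by_cases hx : A (f x) = true
    · simp [hx, hK1]
    · simp [hx, hK2]
  intro hcon
  obtain ⟨F, -, h3, h4⟩ := hcon {[], [true]} {[]} c2 (hard _ (by simp) (by simp)) c1
    (hard _ (by simp) (by simp))
  have h5 : F [] = [] := (h4 []).1 (by simp)
  have h6 : F [true] = [] := (h4 [true]).1 (by simp)
  have h7 := h3 (h5.trans h6.symm)
  simp at h7

theorem result :
    (∀ B : ℕ → Oracle, ∃ A : Oracle, ∀ i, ∀ C : Set (List Bool) → Prop,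
      (∀ L, IsNP (xor2 A (B i)) L → C L) → (∀ L, C L → IsPSPACE (xor2 A (B i)) L) →
        ¬ OneDegree (xor2 A (B i)) C) ∧
    ∀ᵐ B ∂randomSeq, ∀ I : Set ℕ, ∃ A : Oracle, ∀ i,
      (i ∈ I ↔ ¬ OneDegree (xor2 A (B i)) (IsNP (xor2 A (B i)))) ∧
      (i ∈ I ↔ ¬ OneDegree (xor2 A (B i)) (IsPSPACE (xor2 A (B i)))) ∧
      (i ∉ I → ∀ C : Set (List Bool) → Prop, Closed (xor2 A (B i)) C →
        ∀ K, Hard (xor2 A (B i)) C K → HardOne (xor2 A (B i)) C K) := by
  obtain ⟨h1, h2⟩ := use_p RG.null_good
  refine ⟨fun B => ?_, ?_⟩
  · obtain ⟨A, hA⟩ := h1 B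
    exact ⟨A, fun i C h₁ h₂ => not_oneDegree (hA i) h₁ h₂⟩
  · filter_upwards [h2] with B hB I
    obtain ⟨A, h3, h4⟩ := hB I
    refine ⟨A, fun i => ?_⟩
    generalize hD : xor2 A (B i) = D at *
    by_cases hi : i ∈ I
    · have h5 : ∀ L, IsPSPACE D L → Reduces L {x | D x = true} := by
        rw [← hD]
        exact h3 i hi
      refine ⟨iff_of_true hi (not_oneDegree h5 (fun _ h => h)
        fun _ h => Pool.Agent.TH687.OneDeg.of_np h), iff_of_true hi (not_oneDegree h5
        (fun _ h => Pool.Agent.TH687.OneDeg.of_np h) fun _ h => h), fun h => absurd hi h⟩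
    · have h5 : ∀ M : Alg, Pool.Agent.H673R2.OneOne.Good D M := by
        rw [← hD]
        exact not_not.1 (h4 i hi)
      have key : ∀ C : Set (List Bool) → Prop, Closed D C → ∀ K, Hard D C K → HardOne D C K :=
        fun C hC K hK L hL => Pool.Agent.H673R2.OneOne.general h5 C hC.2.1 hC.2.2 hC.1 hK hL
      refine ⟨iff_of_false hi (not_not.2 (oneDegree_of (key _ ⟨fun _ _ h h' => ?_,
        fun _ _ h h' => ?_, fun _ _ h h' => ?_⟩))), iff_of_false hi (not_not.2 (oneDegree_of
        (key _ ⟨fun _ _ h h' => ?_, fun _ _ h h' => ?_, fun _ _ h h' => ?_⟩))), fun _ => key⟩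
      · exact Pool.Agent.H673R2.OneOne.IsNP.red h h'
      · exact Pool.Agent.H673R2.OneOne.IsNP.inter h' h
      · exact Pool.Agent.H673R2.OneOne.IsNP.union h h'
      · exact Pool.Agent.TH687.OneDeg.red h h'
      · exact Pool.Agent.TH687.OneDeg.inter (Pool.Agent.TH687.OneDeg.of_np h') h
      · exact Pool.Agent.TH687.OneDeg.union h (Pool.Agent.TH687.OneDeg.of_np h')

end Pool.Agent.Results.MP_8a92de_lc.IndependentTranslates
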