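import Pool.Agent.TH654.RB.OD4
import Pool.Agent.TH654.RB.OF3
import Pool.Agent.TH687.OneDeg.PSp
import Pool.Agent.TH678.PC.Few2
import Pool.Agent.TH678.PC.Adv3

/-!
# One-one equivalence of the NP-complete sets near a suitable oracle

An adversary who knows the oracle `O` changes, for all large `n`, at most `g n` of the strings of
length at most `n`; the result is the oracle `A` (`Close g O A`).

There is an oracle `O` such that, if `g` is polynomially bounded and `g n` is at most one third of
the iterated logarithm of `n` for infinitely many `n`, relative to EVERY such oracle `A` there are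
two many-one complete sets for `NP` that are not one-one equivalent. Here `NP ≠ coNP` is possible:
for every `g` tending to infinity, however slowly, there is such an oracle `A` relative to which
moreover `NP ≠ coNP`. On the other hand, if `g n` is at least `ε log log n` for all large `n`, for
some `ε > 0`, then there is such an oracle `A` relative to which the complete sets for `NP` are one
1-degree, and so are the complete sets for `PSPACE`; even, for every class `C` in `PSPACE` that is
closed under many-one reductions and under intersections and unions with sets in `NP`, every set that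
is hard for `C` under many-one reductions is hard for `C` under one-one reductions.

The proof of the first part. The oracle `O` contains the answers to all questions of the following
form, written in a code that can be read in spite of polynomially many changes (`TH678/EL`): find a certificate of `x`
relative to the oracle `O` changed on the strings of the list `l`. Let `K` be complete for `NP`. The
set `B` contains the empty string and the codes `y` of the elements `x` of `K` such that some
changed string has length at most the length of `y`, but is not among the first `|y|` strings. It is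
complete for `NP`: given `x`, the changed strings among the first `|y|` strings are found by brute
force, and a certificate of `x` relative to the oracle changed on them, if there is one, is read from
the code. If it is a certificate relative to `A` then `x` is in `K`. Otherwise, if `x` is in `K` or
if the certificate is wrong, there is a changed string as required, and `x` is in `K` if and only if
`y` is in `B`. But where there are no changed strings of length between `c` and a polynomial in
`2 ^ (c + 1)`, the set `B` has too few elements for a one-one reduction of a complete set that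
contains half of the strings of each length.

The proof of the last part. One string of each of the lengths `2 ^ c ^ j` is changed. It begins with
`0`, or it is used against one of the pairs of a reduction and a set in `PSPACE`, and then it begins
with the number `s` of the pair; each pair gets at most one such string. The reduction number `s` is
applied to the set of all `x` such that either `x` is in `L` and the changed string of the right
length (between `12 |x|` and `(12 |x|) ^ c`) does not begin with `s`, or this string begins with `s`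
and `x`. If the images of two strings `x`, `x'` are the same then one can choose the changed string
such that only one of them is in this set, and the reduction is wrong; the changed strings are chosen
outside the few questions asked by the reductions, so that this does not change the images. So the
images of long strings are different if the reduction is right.
-/

set_option autoImplicit false

namespace Pool.Agent.Results.MP_8a92de_lc.LogStarChanges

open Pool.Agent.NPC Pool.Agent.H620R2.Gauge Pool.Agent.H622R2 Filter
open Pool.Agent.W900.CH (Close)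

/-- The function `g` is polynomially bounded. (For nondecreasing `g`: `g n ≤ n ^ c` for some `c` and
all large `n`.) -/
def PolyBounded (g : ℕ → ℝ) : Prop := ∃ c : ℕ, ∀ᶠ n : ℕ in atTop, ∃ m ≥ n, g m ≤ (n : ℝ) ^ c

/-- The towers `1`, `2`, `4`, `16`, `65536`, ... -/
def tower : ℕ → ℕ
  | 0 => 1
  | k + 1 => 2 ^ tower k

/-- The iterated logarithm: the greatest `k` with `tower k ≤ n`. -/
def logStar (n : ℕ) : ℕ := Nat.findGreatest (fun k => tower k ≤ n) n

/-- The set `K` is hard for the class `C` under many-one reductions computable in polynomial time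
relative to the oracle `A`. -/
def Hard (A : Oracle) (C : Set (List Bool) → Prop) (K : Set (List Bool)) : Prop :=
  ∀ L, C L → ∃ F : List Bool → List Bool, IsFP A F ∧ ∀ x, x ∈ L ↔ F x ∈ K

/-- One-one reducibility in polynomial time relative to the oracle `A`. -/
def RedOne (A : Oracle) (L L' : Set (List Bool)) : Prop :=
  ∃ F : List Bool → List Bool, IsFP A F ∧ Function.Injective F ∧ ∀ x, x ∈ L ↔ F x ∈ L'

/-- The many-one complete sets for the class `C` relative to the oracle `A` form one 1-degree. -/
def OneDegree (A : Oracle) (C : Set (List Bool) → Prop) : Prop :=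
  ∀ K K', C K → Hard A C K → C K' → Hard A C K' → RedOne A K K'

/-- The class `C` is closed under many-one reductions relative to the oracle `A`, and under
intersections and unions with sets in `NP` relative to `A`. -/
def Closed (A : Oracle) (C : Set (List Bool) → Prop) : Prop :=
  (∀ L L' : Set (List Bool), C L' → (∃ F : List Bool → List Bool, IsFP A F ∧
    ∀ x, x ∈ L ↔ F x ∈ L') → C L) ∧
  (∀ L L', C L → IsNP A L' → C (L' ∩ L)) ∧ (∀ L L', C L → IsNP A L' → C (L ∪ L'))

theorem psp_of_np {A : Oracle} {L : Set (List Bool)} (h : IsNP A L) : IsPSPACE A L :=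
  TH687.OneDeg.of_np (TH680.LHD.isNP_iff.2 h)

theorem closed_np (A : Oracle) : Closed A (IsNP A) :=
  ⟨fun _ _ h ⟨_, hF, h1⟩ => TH654.RB.isNP_red hF h1 h, fun _ _ h h' => TH654.RB.isNP_inter h' h,
    fun _ _ h h' => TH654.RB.isNP_union h h'⟩

theorem closed_psp (A : Oracle) : Closed A (IsPSPACE A) :=
  ⟨fun _ _ h ⟨F, hF, h1⟩ => TH687.OneDeg.red ⟨F, H943R5.GC.U6.isFP_toRO hF, h1⟩ h,
    fun _ _ h h' => TH687.OneDeg.inter (psp_of_np h') h,
    fun _ _ h h' => TH687.OneDeg.union h (psp_of_np h')⟩

theorem tower_eq : tower = TH654.RB.tow := by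
  funext k
  induction k with
  | zero => rfl
  | succ k ih =>
    show 2 ^ tower k = 2 ^ TH654.RB.tow k
    rw [ih]

theorem logStar_eq (n : ℕ) : logStar n = TH654.RB.logStar n := by
  unfold logStar TH654.RB.logStar
  rw [tower_eq]

theorem logStar_le (n : ℕ) : logStar n ≤ n := Nat.findGreatest_le n

theorem tendsto_logStar : Tendsto (fun n => (logStar n : ℝ) / 3) atTop atTop := by
  refine Tendsto.atTop_div_const (by norm_num) (tendsto_natCast_atTop_atTop.comp
    (tendsto_atTop_atTop.2 fun k => ⟨TH654.RB.tow k, fun n hn => ?_⟩))
  rw [logStar_eq]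
  exact TH654.RB.le_logStar hn

/-- the iterated logarithms -/
theorem log_bound {ε : ℝ} (hε : 0 < ε) : ∃ c : ℕ, 2 ≤ c ∧ ∀ᶠ n : ℕ in atTop,
    ((Nat.log c (Nat.log 2 n) + 1 : ℕ) : ℝ) ≤ ε * Real.log (Real.log n) := by
  obtain ⟨c, hc⟩ : ∃ c : ℕ, c = ⌈Real.exp (2 / ε)⌉₊ + 2 := ⟨_, rfl⟩
  have hc2 : 2 ≤ c := by omega
  have hlc : 2 / ε ≤ Real.log c := by
    have h1 : Real.exp (2 / ε) ≤ c := by
      rw [hc]
      push_cast
      have := Nat.le_ceil (Real.exp (2 / ε))
      linarith
    have h2 := Real.log_le_log (Real.exp_pos _) h1
    rwa [Real.log_exp] at h2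
  have hlc0 : 0 < 2 / ε := by positivity
  refine ⟨c, hc2, ?_⟩
  have ht : Tendsto (fun n : ℕ => Real.log (Real.log (n : ℝ))) atTop atTop :=
    Real.tendsto_log_atTop.comp (Real.tendsto_log_atTop.comp tendsto_natCast_atTop_atTop)
  filter_upwards [ht.eventually_ge_atTop (1 + 2 / ε), eventually_ge_atTop 3] with n h1 hn
  have hn0 : n ≠ 0 := by omega
  obtain ⟨m, hm⟩ : ∃ m, m = Nat.log 2 n := ⟨_, rfl⟩
  have hm1 : 1 ≤ m := by
    rw [hm]
    exact (Nat.le_log_iff_pow_le (by norm_num) hn0).2 (by omega)
  have h2 : (m : ℝ) * Real.log 2 ≤ Real.log n := by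
    have h3 : ((2 ^ m : ℕ) : ℝ) ≤ n := by
      exact_mod_cast (by rw [hm]; exact Nat.pow_log_le_self 2 hn0)
    have h4 := Real.log_le_log (by positivity) h3
    push_cast at h4
    rwa [Real.log_pow] at h4
  have h5 : (m : ℝ) ≤ 2 * Real.log n := by
    have h6 := Real.log_two_gt_d9
    have h7 : (1 : ℝ) ≤ m := by exact_mod_cast hm1
    nlinarith
  have hln : 0 < Real.log n := Real.log_pos (by exact_mod_cast (by omega : 1 < n))
  have h8 : Real.log m ≤ 1 + Real.log (Real.log n) := by
    have h9 : (0 : ℝ) < m := by exact_mod_cast hm1
    have h10 := Real.log_le_log h9 h5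
    rw [Real.log_mul (by norm_num) hln.ne'] at h10
    have h11 := Real.log_two_lt_d9
    linarith
  have h12 : (Nat.log c m : ℝ) * Real.log c ≤ Real.log m := by
    have h13 : ((c ^ Nat.log c m : ℕ) : ℝ) ≤ m := by
      exact_mod_cast Nat.pow_log_le_self c (by omega)
    have h14 := Real.log_le_log (by positivity) h13
    push_cast at h14
    rwa [Real.log_pow] at h14
  have h15 : (Nat.log c m : ℝ) * (2 / ε) ≤ 1 + Real.log (Real.log n) := by
    have h16 : (Nat.log c m : ℝ) * (2 / ε) ≤ (Nat.log c m : ℝ) * Real.log c :=
      mul_le_mul_of_nonneg_left hlc (Nat.cast_nonneg _)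
    linarith
  rw [← hm]
  push_cast
  have h17 : (Nat.log c m : ℝ) ≤ (1 + Real.log (Real.log n)) * (ε / 2) := by
    have h18 : (Nat.log c m : ℝ) * (2 / ε) * (ε / 2) ≤ (1 + Real.log (Real.log n)) * (ε / 2) :=
      mul_le_mul_of_nonneg_right h15 (by positivity)
    have h19 : (Nat.log c m : ℝ) * (2 / ε) * (ε / 2) = Nat.log c m := by
      field_simp
    linarith
  have h20 : (1 + 2 / ε) * (ε / 2) ≤ Real.log (Real.log n) * (ε / 2) :=
    mul_le_mul_of_nonneg_right h1 (by positivity)
  have h21 : (1 + 2 / ε) * (ε / 2) = ε / 2 + 1 := by
    field_simp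
  linarith

/-- **One-one equivalence of the complete sets near a suitable oracle.** -/
theorem result : ∃ O : Oracle,
    (∀ g : ℕ → ℝ, PolyBounded g → (∃ᶠ n in atTop, 3 * g n ≤ logStar n) →
      ∀ A, Close g O A → ¬ OneDegree A (IsNP A)) ∧
    (∀ g : ℕ → ℝ, Tendsto g atTop atTop → ∃ A, Close g O A ∧ ¬ OneDegree A (IsNP A) ∧
      ∃ L, IsNP A L ∧ ¬ IsNP A Lᶜ) ∧
    (∀ ε : ℝ, 0 < ε → ∀ g : ℕ → ℝ, (∀ᶠ n : ℕ in atTop, ε * Real.log (Real.log n) ≤ g n) →
      ∃ A, Close g O A ∧ OneDegree A (IsNP A) ∧ OneDegree A (IsPSPACE A) ∧
        ∀ C : Set (List Bool) → Prop, Closed A C → (∀ L, C L → IsPSPACE A L) →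
          ∀ K, Hard A C K → ∀ L, C L → RedOne A L K) := by
  obtain ⟨O, hO⟩ := TH654.RB.exists_ws
  have hall : ∀ g : ℕ → ℝ, PolyBounded g → (∃ᶠ n in atTop, 3 * g n ≤ logStar n) →
      ∀ A, Close g O A → ¬ OneDegree A (IsNP A) := by
    intro g hg hg2 A hA hcon
    obtain ⟨h1, h2⟩ := hO A (TH678.PC.dist_poly hg hA)
    have hg3 : ∃ᶠ n in atTop, 3 * g n ≤ TH654.RB.logStar n :=
      hg2.mono fun n hn => by rw [← logStar_eq]; exact hn
    obtain ⟨K, K', h3, h4, h5⟩ := TH654.RB.two_sets h1 h2 (TH654.RB.exists_gap hg3 hA)
    exact h5 (hcon K K' h3.1 h3.2 h4.1 h4.2)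
  refine ⟨O, hall, fun g hg => ?_, fun ε hε g hg => ?_⟩
  swap
  · obtain ⟨c, hc, hc2⟩ := log_bound hε
    obtain ⟨A, h1, h2⟩ := TH654.RB.exists_one hc (O := O) fun A hA => (hO A hA).1
    have key : ∀ C : Set (List Bool) → Prop, Closed A C → (∀ L, C L → IsPSPACE A L) →
        ∀ K, Hard A C K → ∀ L, C L → RedOne A L K := fun C h3 h4 K hK L hL =>
      h2 C h4 h3.1 h3.2.1 h3.2.2 L K hL hK
    refine ⟨A, ?_, fun K K' hK _ _ hK' => key _ (closed_np A) (fun _ => psp_of_np) K' hK' K hK,
      fun K K' hK _ _ hK' => key _ (closed_psp A) (fun _ h => h) K' hK' K hK, key⟩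
    filter_upwards [hg, hc2] with n h3 h4
    refine le_trans ?_ (h4.trans h3)
    exact_mod_cast h1 n
  obtain ⟨g', hg'⟩ : ∃ g' : ℕ → ℝ, g' = fun n => min (g n) ((logStar n : ℝ) / 3) := ⟨_, rfl⟩
  have h1 : Tendsto g' atTop atTop := by
    rw [hg']
    exact tendsto_atTop_atTop.2 fun b => by
      obtain ⟨i, hi⟩ := tendsto_atTop_atTop.1 hg b
      obtain ⟨j, hj⟩ := tendsto_atTop_atTop.1 tendsto_logStar b
      exact ⟨max i j, fun a ha => le_min (hi a (le_trans (le_max_left _ _) ha))
        (hj a (le_trans (le_max_right _ _) ha))⟩
  obtain ⟨A, hA, hL, -⟩ := TH678.PC.exists_proper h1 O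
  refine ⟨A, ?_, ?_, hL⟩
  · filter_upwards [hA] with n hn
    refine hn.trans ?_
    rw [hg']
    exact min_le_left _ _
  · refine hall g' ⟨1, ?_⟩ ?_ A hA
    · filter_upwards with n
      refine ⟨n, le_rfl, ?_⟩
      rw [hg', pow_one]
      have h2 : (logStar n : ℝ) ≤ n := by exact_mod_cast logStar_le n
      have h3 : (0 : ℝ) ≤ logStar n := Nat.cast_nonneg _
      exact (min_le_right _ _).trans (by linarith)
    · refine Eventually.frequently (Eventually.of_forall fun n => ?_)
      rw [hg']
      have h2 := min_le_right (g n) ((logStar n : ℝ) / 3)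
      show 3 * min (g n) ((logStar n : ℝ) / 3) ≤ logStar n
      linarith

end Pool.Agent.Results.MP_8a92de_lc.LogStarChanges
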