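import Pool.Agent.H673R2.OneOne.Gen
import Pool.Agent.TH687.OneDeg.PSp

set_option autoImplicit false

/-!
# Relative to a random oracle, the complete sets for NP, and for PSPACE, are one 1-degree

For almost every oracle `A` (every string is in `A` with probability `1/2`, independently), every
set which is hard for `NP` relative to `A` under polynomial-time many-one reductions relative to `A`
is hard for `NP` under one-one, length-increasing polynomial-time reductions relative to `A`, and
the same holds for `PSPACE`. So any two many-one complete sets for `NP` are 1-equivalent, and any two
complete sets for `PSPACE` are 1-equivalent: relative to almost every oracle the negated forms of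
both questions hold (while there are `NP`-complete sets which are not p-isomorphic, by Kurtz,
Mahaney and Royer).

More generally, simultaneously for all classes `C` of languages which are closed under many-one
reductions relative to `A` and under intersections and unions with sets in `NP` relative to `A` (for
example the classes `Σ_k` of the polynomial hierarchy), sets hard for `C` under many-one reductions
are hard for `C` under one-one, length-increasing reductions.

The idea (helper673 of an earlier round, `Pool.Agent.H673R2.OneOne`): a set `L` in `C` is hidden in
the set of all pairs `(z, r)` where either `r` is a value of a first pseudorandom generator given by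
the oracle, and `z` is in `L`, or `r` is a value of a second generator. If a reduction maps
`(z, G(s))`, where the seed `s` is itself given by the oracle at `z`, to a short string or to the
image of another such pair, then it does so for a value of the second generator and for a random
string too, almost surely with finitely many exceptions, which is impossible since the first is in
the set and the second is not.
-/

namespace Pool.Agent.Results.MP_8a92de_lc.RandomOracle

open Pool.Agent.H628R3.RO
open Pool.Agent.H673R2.OneOne (Red1)
open Pool.Agent.H620R2.Gauge (IsPSPACE)

/-- `B` is hard for the class `C` under many-one reductions computable in polynomial time relative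
to `A`. -/
def Hard (A : Oracle) (C : Set (List Bool) → Prop) (B : Set (List Bool)) : Prop :=
  ∀ L, C L → Red A L B

/-- `B` is hard for the class `C` under one-one, length-increasing reductions computable in
polynomial time relative to `A`. -/
def HardOne (A : Oracle) (C : Set (List Bool) → Prop) (B : Set (List Bool)) : Prop :=
  ∀ L, C L → Red1 A L B

/-- `C` is closed under many-one reductions relative to `A`, and under intersections and unions with
sets in `NP` relative to `A`. -/
def Closed (A : Oracle) (C : Set (List Bool) → Prop) : Prop :=
  (∀ L L', Red A L L' → C L' → C L) ∧
  (∀ L L', C L → IsNP A L' → C (L' ∩ L)) ∧ (∀ L L', C L → IsNP A L' → C (L ∪ L'))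

/-- **Relative to a random oracle, many-one hard sets are hard under one-one, length-increasing
reductions.** -/
theorem result : ∀ᵐ A ∂randomOracle,
    (∀ B, Hard A (IsNP A) B → HardOne A (IsNP A) B) ∧
    (∀ B, Hard A (IsPSPACE A) B → HardOne A (IsPSPACE A) B) ∧
    (∀ C : Set (List Bool) → Prop, Closed A C → ∀ B, Hard A C B → HardOne A C B) := by
  filter_upwards [Pool.Agent.H673R2.OneOne.ae_Good] with A hA
  have key : ∀ C : Set (List Bool) → Prop, Closed A C → ∀ B, Hard A C B → HardOne A C B :=
    fun C hC B hB L hL => Pool.Agent.H673R2.OneOne.general hA C hC.2.1 hC.2.2 hC.1 hB hL
  refine ⟨key _ ⟨fun _ _ h h' => Pool.Agent.H673R2.OneOne.IsNP.red h h', fun _ _ h h' => Pool.Agent.H673R2.OneOne.IsNP.inter h' h,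
    fun _ _ h h' => Pool.Agent.H673R2.OneOne.IsNP.union h h'⟩, key _ ⟨fun _ _ h h' => ?_, fun _ _ h h' => ?_,
    fun _ _ h h' => ?_⟩, key⟩
  · exact Pool.Agent.TH687.OneDeg.red h h'
  · exact Pool.Agent.TH687.OneDeg.inter (Pool.Agent.TH687.OneDeg.of_np h') h
  · exact Pool.Agent.TH687.OneDeg.union h (Pool.Agent.TH687.OneDeg.of_np h')

end Pool.Agent.Results.MP_8a92de_lc.RandomOracle
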