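import Pool.Agent.TH684.DN.Fin

/-!
# Complete sets of subexponential density and Arthur-Merlin proofs

A set which is 1-equivalent to the satisfiable formulas has exponential density, and so has its
complement. By Buhrman and Hitchcock all `NP`-hard sets have exponential density unless `coNP` is
contained in `NP/poly`. We remove the advice: if `NP` or `coNP` is reducible to a set `D` of
subexponential density by conjunctive reductions with `O(n ^ (1 - ε))` questions, for example by
many-one reductions, then the whole polynomial hierarchy is contained in `AM`. If the same holds for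
`PSPACE`, then `PSPACE = AM`.

The proof. Let `A` be complete for `NP` and consider a list `x₀, x₁, ..., x_s` of strings. For every
set `U` of positions let `z_U` be the question whether `x₀` or one of the strings `x_i`, `i ∈ U`, is in
`A`, and let `F(U)` be the list of the questions of the reduction for `z_U`. If `F(U) = F(U')` for
different sets `U`, `U'`, then for `i` in the symmetric difference it is impossible that `x_i` is the
only member of `A` in the list. If there is no such pair, then there are more lists `F(U)` than lists of
members of `D`, so `x₀` is not in `A`; the number of the lists `F(U)` can be proved with public coins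
(the prover commits to a few hash functions). In this way one vector of the answers for the list is
excluded with public coins, and the exclusion theorem of `Pool.Agent.TH684.AM.Law` gives that `coNP` is
contained in `AM`. For `PSPACE` a vector is excluded by a function computable in the polynomial
hierarchy.
-/

set_option autoImplicit false

namespace Pool.Agent.Results.MP_8a92de_lc.SubexponentialDensity

open Pool.Agent.NPC Pool.Agent.H251R5.PQ Pool.Agent.H579R2.Spt Pool.Agent.TH684.DN
open Pool.Agent.H623R2.PS (InPSPACE PSPACEHard)
open Pool.Agent.W903.GP (InPH)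
open Pool.Agent.W920.NL (InAM)

theorem conj_of_reduces {S D : Set (List Bool)} (h : Reduces S D) : ConjReduces S D := by
  obtain ⟨f, hf, hs⟩ := h
  refine ⟨fun z => [f z], 1, 0, PIso.poly_iff.1 (bits_poly.comp (NPC.Poly.cons (PIso.poly_iff.2 hf)
    (NPC.Poly.const []))), fun z => ⟨by simp, ?_⟩⟩
  rw [hs z]
  simp

theorem reduces_compl {S D : Set (List Bool)} (h : Reduces S D) : Reduces Sᶜ Dᶜ := by
  obtain ⟨f, hf, hs⟩ := h
  exact ⟨f, hf, fun z => not_congr (hs z)⟩

/-- **Main result.** -/
theorem result :
    (∀ D : Set (List Bool), SubExp D →
      ((∀ S : Set (List Bool), InNP S → ConjReduces S D) ∨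
        (∀ S : Set (List Bool), InNP S → ConjReduces Sᶜ D)) →
      (∀ S : Set (List Bool), InNP S → InAM Sᶜ) ∧ ∀ S : Set (List Bool), InPH S → InAM S) ∧
    (∀ D : Set (List Bool), SubExp D → (∀ S : Set (List Bool), InPSPACE S → ConjReduces S D) →
      ∀ S : Set (List Bool), InPSPACE S → InAM S) ∧
    (∀ B : Set (List Bool), SubExp B ∨ SubExp Bᶜ →
      (NPHard B → (∀ S : Set (List Bool), InNP S → InAM Sᶜ) ∧
        ∀ S : Set (List Bool), InPH S → InAM S) ∧
      (PSPACEHard B → ∀ S : Set (List Bool), InPSPACE S → InAM S)) := by
  have h1 : ∀ D : Set (List Bool), SubExp D →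
      ((∀ S : Set (List Bool), InNP S → ConjReduces S D) ∨
        (∀ S : Set (List Bool), InNP S → ConjReduces Sᶜ D)) →
      (∀ S : Set (List Bool), InNP S → InAM Sᶜ) ∧ ∀ S : Set (List Bool), InPH S → InAM S :=
    fun D hD h => ⟨fun S hS => inAM_of_dens hD h hS, fun S hS =>
      Pool.Agent.TH684.AM.ph_sub_am (fun S hS => inAM_of_dens hD h hS) hS⟩
  have h2 : ∀ D : Set (List Bool), SubExp D →
      (∀ S : Set (List Bool), InPSPACE S → ConjReduces S D) →
      ∀ S : Set (List Bool), InPSPACE S → InAM S := fun D hD h S hS => pspace_sub_am hD h hS
  refine ⟨h1, h2, fun B hB => ⟨fun hN => ?_, fun hP => ?_⟩⟩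
  · rcases hB with hB | hB
    · exact h1 B hB (Or.inl fun S hS => conj_of_reduces (hN S hS))
    · exact h1 Bᶜ hB (Or.inr fun S hS => conj_of_reduces (reduces_compl (hN S hS)))
  · rcases hB with hB | hB
    · exact h2 B hB fun S hS => conj_of_reduces (hP S hS)
    · refine h2 Bᶜ hB fun S hS => ?_
      have h3 := reduces_compl (hP Sᶜ (Pool.Agent.W901.NU.cl_pspace.compl hS))
      rw [compl_compl] at h3
      exact conj_of_reduces h3

end Pool.Agent.Results.MP_8a92de_lc.SubexponentialDensity
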